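import Mathlib

/-! The extended binary Golay code, given by a generator matrix, and its weights. -/

namespace Pool.Agent.Lib.MP_e6e291_co.D24

open Finset

def row (j : ℕ) : ℕ := [10727425, 13750274, 15261700, 11825160, 14299152, 15536160, 16154688,
  12271744, 10330368, 9359872, 13067264, 8386560].getD j 0

/-- the codeword with message `n`, as a 24 bit number, built from the first `k` rows -/
def enc (n : ℕ) : ℕ → ℕ
  | 0 => 0
  | k + 1 => if n / 2 ^ k % 2 = 1 then enc n k ^^^ row k else enc n k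

def bit (a i : ℕ) : ℕ := a / 2 ^ i % 2

theorem bit_xor (a b i : ℕ) : bit (a ^^^ b) i = (bit a i + bit b i) % 2 := by
  unfold bit
  rw [Nat.xor_div_two_pow, Nat.xor_mod_two_eq]
  omega

theorem bit_enc (n i : ℕ) : ∀ k, bit (enc n k) i = (∑ j ∈ range k, bit n j * bit (row j) i) % 2
  | 0 => by simp [enc, bit]
  | k + 1 => by
    rw [enc, sum_range_succ]
    split_ifs with h
    · have h1 : bit n k = 1 := h
      rw [bit_xor, bit_enc n i k, h1]; omega
    · have h1 : bit n k = 0 := by unfold bit; omega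
      rw [bit_enc n i k, h1]; omega

def supp (a : ℕ) : Finset (Fin 24) := univ.filter fun i => bit a i = 1

/-- support of the codeword with message `n` -/
def sp (n : ℕ) : Finset (Fin 24) := supp (enc n 12)

def pop (a : ℕ) : ℕ → ℕ
  | 0 => 0
  | k + 1 => pop a k + a / 2 ^ k % 2

theorem pop_eq (a : ℕ) : ∀ k, pop a k = ∑ i ∈ range k, bit a i
  | 0 => rfl
  | k + 1 => by rw [pop, pop_eq a k, sum_range_succ, bit]

theorem card_supp (a : ℕ) : (supp a).card = pop a 24 := by
  rw [pop_eq, supp, card_filter, ← Fin.sum_univ_eq_sum_range (fun i => bit a i) 24]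
  refine sum_congr rfl fun i _ => ?_
  have : bit a i < 2 := Nat.mod_lt _ (by norm_num)
  split_ifs <;> omega

theorem wt_all : ∀ n < 4096, pop (enc n 12) 24 % 4 = 0 ∧ pop (enc n 12) 24 ≠ 4 ∧
    enc n 12 % 4096 = n := by
  have h : ∀ a < 64, ∀ b < 64, pop (enc (64 * a + b) 12) 24 % 4 = 0 ∧
      pop (enc (64 * a + b) 12) 24 ≠ 4 ∧ enc (64 * a + b) 12 % 4096 = 64 * a + b := by
    decide +kernel
  intro n hn
  have := h (n / 64) (by omega) (n % 64) (by omega)
  rwa [Nat.div_add_mod] at this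

theorem wt_count : ((range 4096).filter fun n => pop (enc n 12) 24 = 8).card = 759 := by
  decide +kernel

theorem sp_top : sp 4095 = univ := by decide +kernel

theorem sp_wt {n : ℕ} (h : n < 4096) : (sp n).card % 4 = 0 ∧ (sp n).card ≠ 4 := by
  rw [sp, card_supp]
  exact ⟨(wt_all n h).1, (wt_all n h).2.1⟩

theorem sp_count : ((range 4096).filter fun n => (sp n).card = 8).card = 759 := by
  simp only [sp, card_supp]
  exact wt_count

theorem sp_inj {m n : ℕ} (hm : m < 4096) (hn : n < 4096) (h : sp m = sp n) : m = n := by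
  rw [← (wt_all m hm).2.2, ← (wt_all n hn).2.2]
  refine Nat.eq_of_testBit_eq fun i => ?_
  rw [show 4096 = 2 ^ 12 from rfl, Nat.testBit_mod_two_pow, Nat.testBit_mod_two_pow]
  by_cases hi : i < 12
  · have := Finset.ext_iff.mp h ⟨i, by omega⟩
    simp only [sp, supp, mem_filter, mem_univ, true_and, bit] at this
    simp only [hi, decide_true, Bool.true_and, Nat.testBit_eq_decide_div_mod_eq, this]
  · simp [hi]

/-- integer vectors whose reduction mod 2 is a codeword -/
def Gol (c : Fin 24 → ℤ) : Prop :=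
  ∃ v : Fin 12 → ℤ, ∀ i, 2 ∣ c i - ∑ j, v j * (bit (row j) i : ℕ)

theorem Gol.sub {c d : Fin 24 → ℤ} (hc : Gol c) (hd : Gol d) : Gol fun i => c i - d i := by
  obtain ⟨v, hv⟩ := hc
  obtain ⟨w, hw⟩ := hd
  refine ⟨fun j => v j - w j, fun i => ?_⟩
  have h1 := hv i
  have h2 := hw i
  simp only [sub_mul, sum_sub_distrib]
  omega

theorem sp_sum (n : ℕ) (i : Fin 24) :
    i ∈ sp n ↔ (∑ j : Fin 12, (bit n j : ℤ) * (bit (row j) i : ℕ)) % 2 = 1 := by
  simp only [sp, supp, mem_filter, mem_univ, true_and, bit_enc]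
  rw [← Fin.sum_univ_eq_sum_range (fun j => bit n j * bit (row j) i) 12]
  have : (∑ j : Fin 12, (bit n j : ℤ) * (bit (row j) i : ℕ))
      = ((∑ j : Fin 12, bit n j * bit (row j) i : ℕ) : ℤ) := by push_cast; rfl
  rw [this]
  omega

theorem gol_iff {c : Fin 24 → ℤ} : Gol c ↔ ∃ n < 4096, ∀ i, (c i % 2 = 1 ↔ i ∈ sp n) := by
  constructor
  · rintro ⟨v, hv⟩
    let f : Fin 12 → Fin 2 := fun j => ⟨(v j % 2).toNat, by omega⟩
    refine ⟨finFunctionFinEquiv f, (finFunctionFinEquiv f).2, fun i => ?_⟩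
    have hb : ∀ j : Fin 12, (bit (finFunctionFinEquiv f) j : ℤ) = v j % 2 := fun j => by
      have := finFunctionFinEquiv_symm_apply_val (finFunctionFinEquiv f) j
      rw [Equiv.symm_apply_apply] at this
      rw [bit, ← this]
      simp only [f]
      omega
    rw [sp_sum]
    simp only [hb]
    have h2 : (2 : ℤ) ∣ ∑ j, v j * (bit (row j) i : ℕ) - ∑ j, v j % 2 * (bit (row j) i : ℕ) := by
      rw [← sum_sub_distrib]
      refine dvd_sum fun j _ => ?_
      rw [← sub_mul]
      exact Dvd.dvd.mul_right (by omega) _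
    have := hv i
    omega
  · rintro ⟨n, -, h⟩
    refine ⟨fun j => bit n j, fun i => ?_⟩
    have := h i
    rw [sp_sum] at this
    beta_reduce
    omega

end Pool.Agent.Lib.MP_e6e291_co.D24
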