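import Pool.Agent.Lib.MP_e6e291_co.D24.Golay

/-! The Leech lattice (scaled by the square root of 8), its minimal norm and 196560 minimal
vectors. -/

set_option linter.constructorNameAsVariable false

namespace Pool.Agent.Lib.MP_e6e291_co.D24

open Finset

/-- membership in the scaled Leech lattice -/
def Lee (x : Fin 24 → ℤ) : Prop :=
  ∃ (m : ℤ) (c : Fin 24 → ℤ), (∀ i, x i = m + 2 * c i) ∧ 8 ∣ ∑ i, x i - 4 * m ∧ Gol c

def nrm (x : Fin 24 → ℤ) : ℤ := ∑ i, x i ^ 2

theorem Lee.sub {x y : Fin 24 → ℤ} (hx : Lee x) (hy : Lee y) : Lee (x - y) := by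
  obtain ⟨m, c, h1, h2, h3⟩ := hx
  obtain ⟨k, d, g1, g2, g3⟩ := hy
  refine ⟨m - k, fun i => c i - d i, fun i => ?_, ?_, h3.sub g3⟩
  · rw [Pi.sub_apply, h1, g1]; ring
  · simp only [Pi.sub_apply, sum_sub_distrib]
    omega

theorem gol_even {c : Fin 24 → ℤ} (h : ∀ i, 2 ∣ c i) : Gol c := ⟨0, fun i => by simpa using h i⟩

theorem gol_const (k : ℤ) : Gol fun _ => k := by
  rcases Int.emod_two_eq_zero_or_one k with h | h
  · exact gol_even fun _ => by omega
  · exact gol_iff.mpr ⟨4095, by norm_num, fun i => by simp [sp_top, h]⟩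

theorem lee_eight (z : Fin 24 → ℤ) : Lee fun i => 8 * z i :=
  ⟨0, fun i => 4 * z i, fun i => by ring, by rw [← mul_sum]; simp,
    gol_even fun i => by omega⟩

theorem Lee.min {x : Fin 24 → ℤ} (hx : Lee x) (h0 : x ≠ 0) : 32 ≤ nrm x := by
  obtain ⟨m, c, h1, h2, h3⟩ := hx
  obtain ⟨n, hn, hc⟩ := gol_iff.mp (h3.sub (gol_const (-(m / 2))))
  have hw := sp_wt hn
  set d : Fin 24 → ℤ := fun i => c i - -(m / 2) with hd
  have hc' : ∀ i, d i % 2 = 1 ↔ i ∈ sp n := hc
  have h4 : ∀ i, x i = m % 2 + 2 * d i := fun i => by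
    rw [h1]; simp only [hd]; omega
  clear_value d
  rcases Int.emod_two_eq_zero_or_one m with hm | hm
  · rw [hm] at h4
    by_cases he : (sp n).card = 0
    · have h5 : ∀ i, x i = 4 * (d i / 2) := fun i => by
        have : i ∉ sp n := by rw [card_eq_zero.mp he]; simp
        rw [← hc'] at this
        rw [h4]; omega
      have h6 : nrm x = 16 * ∑ i, (d i / 2) ^ 2 := by
        rw [nrm, mul_sum]
        exact sum_congr rfl fun i _ => by rw [h5]; ring
      have h7 : ∑ i, x i = 4 * ∑ i, d i / 2 := by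
        rw [mul_sum]
        exact sum_congr rfl fun i _ => h5 i
      have h8 : (2 : ℤ) ∣ ∑ i, (d i / 2) ^ 2 - ∑ i, d i / 2 := by
        rw [← sum_sub_distrib]
        refine dvd_sum fun i _ => ?_
        have := Int.even_mul_pred_self (d i / 2)
        rw [show (d i / 2) ^ 2 - d i / 2 = d i / 2 * (d i / 2 - 1) by ring]
        exact even_iff_two_dvd.mp this
      obtain ⟨i, hi⟩ := Function.ne_iff.mp h0
      have h9 : (d i / 2) ^ 2 ≤ ∑ i, (d i / 2) ^ 2 :=
        single_le_sum (f := fun i => (d i / 2) ^ 2) (fun i _ => sq_nonneg _) (mem_univ i)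
      have h10 : 0 < (d i / 2) ^ 2 := by
        have : d i / 2 ≠ 0 := fun h => hi (by rw [h5, h]; rfl)
        positivity
      omega
    · have h5 : ∑ _i ∈ sp n, (4 : ℤ) ≤ ∑ i ∈ sp n, x i ^ 2 := sum_le_sum fun i hi => by
        have h6 : d i ≠ 0 := fun h => by
          have := (hc' i).mpr hi
          omega
        have : 0 < d i ^ 2 := by positivity
        rw [h4]; nlinarith
      have h6 : ∑ i ∈ sp n, x i ^ 2 ≤ nrm x :=
        sum_le_sum_of_subset_of_nonneg (subset_univ _) fun i _ _ => sq_nonneg _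
      rw [sum_const, nsmul_eq_mul] at h5
      omega
  · rw [hm] at h4
    by_cases he : ∀ i, d i = 0 ∨ d i = -1
    · exfalso
      have h5 : ∀ i, x i = 1 - 2 * (if i ∈ sp n then 1 else 0) := fun i => by
        have := hc' i
        have := he i
        rw [h4]
        split_ifs with h
        · have := (hc' i).mpr h
          omega
        · rw [← hc'] at h
          omega
      have h6 : ∑ i, x i = 24 - 2 * (sp n).card := by
        simp only [h5, sum_sub_distrib, ← mul_sum]
        simp
      omega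
    · push Not at he
      obtain ⟨i, hi⟩ := he
      have h5 : ∀ j, 0 ≤ x j ^ 2 - 1 := fun j => by
        have h6 : x j ≠ 0 := by rw [h4]; omega
        have : 0 < x j ^ 2 := by positivity
        omega
      have h6 : x i ^ 2 - 1 ≤ ∑ j, (x j ^ 2 - 1) :=
        single_le_sum (f := fun j => x j ^ 2 - 1) (fun j _ => h5 j) (mem_univ i)
      have h7 : 9 ≤ x i ^ 2 := by
        have : x i ≤ -3 ∨ 3 ≤ x i := by rw [h4]; omega
        rcases this with h | h <;> nlinarith
      have h8 : ∑ j, (x j ^ 2 - 1) = nrm x - 24 := by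
        rw [sum_sub_distrib, nrm]; simp
      omega

/-- sign vector with support `T` and negative part `U` -/
def sv (T U : Finset (Fin 24)) (i : Fin 24) : ℤ := if i ∈ T then (if i ∈ U then -1 else 1) else 0

theorem sv_sq (T U : Finset (Fin 24)) : ∑ i, sv T U i ^ 2 = T.card := by
  have : ∀ i, sv T U i ^ 2 = if i ∈ T then 1 else 0 := fun i => by
    unfold sv; split_ifs <;> norm_num
  simp [this]

theorem sv_sum {T U : Finset (Fin 24)} (h : U ⊆ T) : ∑ i, sv T U i = T.card - 2 * U.card := by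
  have : ∀ i, sv T U i = (if i ∈ T then 1 else 0) - 2 * (if i ∈ U then 1 else 0) := fun i => by
    have := @h i
    unfold sv; split_ifs <;> simp_all
  simp only [this, sum_sub_distrib, ← mul_sum]
  simp

theorem sv_inj {T U T' U' : Finset (Fin 24)} (h : U ⊆ T) (h' : U' ⊆ T')
    (e : ∀ i, sv T U i = sv T' U' i) : T = T' ∧ U = U' := by
  constructor <;> ext i <;> have := e i <;> have := @h i <;> have := @h' i <;>
    unfold sv at * <;> split_ifs at * <;> simp_all

@[irreducible] noncomputable def SA : Finset (Finset (Fin 24)) := powersetCard 2 univ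

@[irreducible] noncomputable def SB : Finset ℕ := (range 4096).filter fun n => (sp n).card = 8

theorem mem_SA {T : Finset (Fin 24)} : T ∈ SA ↔ T.card = 2 := by
  rw [SA, mem_powersetCard_univ]

theorem mem_SB {n : ℕ} : n ∈ SB ↔ n < 4096 ∧ (sp n).card = 8 := by
  rw [SB, mem_filter, mem_range]

theorem card_SA : SA.card = 276 := by
  rw [SA, card_powersetCard, card_univ, Fintype.card_fin]
  decide

theorem card_SB : SB.card = 759 := by
  rw [SB, sp_count]

@[irreducible] noncomputable def VA : Finset (Fin 24 → ℤ) :=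
  (SA.sigma fun T => T.powerset).image
    fun p i => 4 * sv p.1 p.2 i

@[irreducible] noncomputable def VB : Finset (Fin 24 → ℤ) :=
  (SB.sigma fun n => (sp n).powerset.filter fun U => U.card % 2 = 0).image
      fun p i => 2 * sv (sp p.1) p.2 i

@[irreducible] noncomputable def VC : Finset (Fin 24 → ℤ) :=
  ((univ : Finset (Fin 24)) ×ˢ range 4096).image
    fun p i => sv univ (sp p.2) i * if i = p.1 then -3 else 1

theorem card_VA : VA.card = 1104 := by
  rw [VA, card_image_of_injOn, card_sigma]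
  · rw [sum_congr rfl (g := fun _ => 4) fun T hT => by
      rw [card_powerset, mem_SA.mp hT]; rfl]
    rw [sum_const, card_SA]
    rfl
  · rintro ⟨T, U⟩ hp ⟨T', U'⟩ hq e
    simp only [coe_sigma, Set.mem_sigma_iff, mem_coe, mem_powerset] at hp hq
    obtain ⟨rfl, rfl⟩ := sv_inj hp.2 hq.2 fun i => by
      have := congrFun e i
      simp only at this
      omega
    rfl

theorem card_even {T : Finset (Fin 24)} (h : T.card = 8) :
    (T.powerset.filter fun U => U.card % 2 = 0).card = 128 := by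
  rw [card_filter, sum_powerset_apply_card (fun k => if k % 2 = 0 then 1 else 0), h]
  decide

theorem card_VB : VB.card = 97152 := by
  rw [VB, card_image_of_injOn, card_sigma]
  · rw [sum_congr rfl (g := fun _ => 128) fun n hn => card_even (mem_SB.mp hn).2]
    rw [sum_const, card_SB]
    rfl
  · rintro ⟨n, U⟩ hp ⟨n', U'⟩ hq e
    simp only [coe_sigma, Set.mem_sigma_iff, mem_coe, mem_powerset, mem_filter, mem_SB]
      at hp hq
    obtain ⟨h1, rfl⟩ := sv_inj hp.2.1 hq.2.1 fun i => by
      have := congrFun e i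
      simp only at this
      omega
    obtain rfl := sp_inj hp.1.1 hq.1.1 h1
    rfl

theorem sv_univ (U : Finset (Fin 24)) (i : Fin 24) : sv univ U i = if i ∈ U then -1 else 1 := by
  simp [sv]

theorem card_VC : VC.card = 98304 := by
  rw [VC, card_image_of_injOn, card_product]
  · simp
  · rintro ⟨k, n⟩ hp ⟨k', n'⟩ hq e
    simp only [coe_product, Set.mem_prod, mem_coe, mem_range] at hp hq
    obtain rfl : k = k' := by
      by_contra hk
      have := congrFun e k
      simp only [sv_univ, if_neg hk, if_true] at this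
      split_ifs at this <;> omega
    have h1 := (sv_inj (subset_univ (sp n)) (subset_univ (sp n')) fun i => by
      have := congrFun e i
      simp only at this
      split_ifs at this <;> omega).2
    obtain rfl := sp_inj hp.2 hq.2 h1
    rfl

theorem VA_prop {x : Fin 24 → ℤ} (h : x ∈ VA) : Lee x ∧ nrm x = 32 ∧ ∀ i, 4 ∣ x i := by
  rw [VA, mem_image] at h
  obtain ⟨⟨T, U⟩, hp, rfl⟩ := h
  simp only [mem_sigma, mem_SA, mem_powerset] at hp
  refine ⟨⟨0, fun i => 2 * sv T U i, fun i => by ring, ?_, gol_even fun i => by omega⟩, ?_,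
    fun i => by simp⟩
  · rw [← mul_sum, sv_sum hp.2, hp.1]
    omega
  · simp only [nrm, mul_pow, ← mul_sum, sv_sq, hp.1]
    norm_num

theorem VB_prop {x : Fin 24 → ℤ} (h : x ∈ VB) :
    Lee x ∧ nrm x = 32 ∧ (∀ i, 2 ∣ x i) ∧ ∃ i, ¬ 4 ∣ x i := by
  rw [VB, mem_image] at h
  obtain ⟨⟨n, U⟩, hp, rfl⟩ := h
  simp only [mem_sigma, mem_filter, mem_SB, mem_powerset] at hp
  refine ⟨⟨0, fun i => sv (sp n) U i, fun i => by ring, ?_,
    gol_iff.mpr ⟨n, hp.1.1, fun i => ?_⟩⟩, ?_, fun i => by simp, ?_⟩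
  · rw [← mul_sum, sv_sum hp.2.1, hp.1.2]
    omega
  · unfold sv
    split_ifs <;> simp_all
  · simp only [nrm, mul_pow, ← mul_sum, sv_sq, hp.1.2]
    norm_num
  · obtain ⟨i, hi⟩ := card_pos.mp (by omega : 0 < (sp n).card)
    refine ⟨i, ?_⟩
    simp only [sv, if_pos hi]
    split_ifs <;> omega

theorem VC_prop {x : Fin 24 → ℤ} (h : x ∈ VC) : Lee x ∧ nrm x = 32 ∧ ¬ 2 ∣ x 0 := by
  rw [VC, mem_image] at h
  obtain ⟨⟨k, n⟩, hp, rfl⟩ := h
  simp only [mem_product, mem_range] at hp
  have hw := sp_wt hp.2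
  refine ⟨⟨1, fun i => (sv univ (sp n) i * (if i = k then -3 else 1) - 1) / 2, fun i => ?_, ?_,
    gol_iff.mpr ⟨n, hp.2, fun i => ?_⟩⟩, ?_, ?_⟩
  · simp only [sv_univ]
    split_ifs <;> rfl
  · have : ∀ i, sv univ (sp n) i * (if i = k then -3 else 1)
        = sv univ (sp n) i - if i = k then 4 * sv univ (sp n) i else 0 := fun i => by
      split_ifs <;> ring
    simp only [this, sum_sub_distrib, sum_ite_eq', mem_univ, if_true, sv_sum (subset_univ _),
      card_univ, Fintype.card_fin]
    rw [sv_univ]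
    split_ifs <;> omega
  · simp only [sv_univ]
    split_ifs <;> simp_all
  · have : ∀ i, (sv univ (sp n) i * (if i = k then -3 else 1)) ^ 2
        = 1 + if i = k then 8 else 0 := fun i => by
      rw [sv_univ]
      split_ifs <;> rfl
    simp only [nrm, this, sum_add_distrib, sum_ite_eq', mem_univ, if_true]
    simp
  · simp only [sv_univ]
    split_ifs <;> omega

@[irreducible] noncomputable def VV : Finset (Fin 24 → ℤ) := VA ∪ VB ∪ VC

theorem card_VV : VV.card = 196560 := by
  rw [VV, card_union_of_disjoint, card_union_of_disjoint, card_VA, card_VB, card_VC]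
  · refine disjoint_left.mpr fun x ha hb => ?_
    obtain ⟨i, hi⟩ := (VB_prop hb).2.2.2
    exact hi ((VA_prop ha).2.2 i)
  · refine disjoint_left.mpr fun x ha hc => (VC_prop hc).2.2 ?_
    rcases mem_union.mp ha with h | h
    · have := (VA_prop h).2.2 0
      omega
    · exact (VB_prop h).2.2.1 0

theorem VV_prop {x : Fin 24 → ℤ} (h : x ∈ VV) : Lee x ∧ nrm x = 32 ∧ ∀ i, -8 ≤ x i ∧ x i ≤ 8 := by
  have h1 : Lee x ∧ nrm x = 32 := by
    rw [VV] at h
    rcases mem_union.mp h with h | h
    · rcases mem_union.mp h with h | h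
      · exact ⟨(VA_prop h).1, (VA_prop h).2.1⟩
      · exact ⟨(VB_prop h).1, (VB_prop h).2.1⟩
    · exact ⟨(VC_prop h).1, (VC_prop h).2.1⟩
  refine ⟨h1.1, h1.2, fun i => ?_⟩
  have h2 : x i ^ 2 ≤ nrm x :=
    single_le_sum (f := fun j => x j ^ 2) (fun j _ => sq_nonneg _) (mem_univ i)
  rw [h1.2] at h2
  constructor <;> nlinarith

end Pool.Agent.Lib.MP_e6e291_co.D24
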