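import Pool.Agent.Lib.MP_e6e291_co.Upper
import Pool.Agent.Lib.MP_e6e291_co.D24.Cert
import Pool.Agent.Lib.MP_30f764_gt.Geg

set_option linter.unusedSimpArgs false

namespace Pool.Agent.Lib.MP_e6e291_co.D24

open Finset
open Pool.Agent.Lib.MP_30f764_gt (geg PSD)

variable {ι : Type} {S : Finset ι}

theorem pk_geg (u : ι → EuclideanSpace ℝ (Fin 24)) (hu : ∀ i ∈ S, ‖u i‖ = 1) (k : ℕ) :
    PK S fun i j => geg 24 (inner ℝ (u i) (u j)) k := by
  have h1 : PSD S fun _ _ => (1 : ℝ) := PK.one S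
  have h2 := h1.geg_mul (n := 24) (by norm_num) u hu k
  intro w
  simpa only [mul_one] using h2 w

theorem gq0 (t : ℝ) : geg 24 t 0 = ((1) * t ^ 0) / 1 := by
  simp [geg]

theorem gq1 (t : ℝ) : geg 24 t 1 = ((1) * t ^ 1) / 1 := by
  simp [geg]

theorem gq2 (t : ℝ) : geg 24 t 2 = ((-1) * t ^ 0 + (24) * t ^ 2) / 23 := by
  have h : geg 24 t (0 + 2) = _ := geg.eq_3 24 t 0
  rw [show 0 + 1 = 1 from rfl, gq1, gq0] at h
  rw [show 2 = 0 + 2 from rfl, h]
  push_cast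
  ring

theorem gq3 (t : ℝ) : geg 24 t 3 = ((-3) * t ^ 1 + (26) * t ^ 3) / 23 := by
  have h : geg 24 t (1 + 2) = _ := geg.eq_3 24 t 1
  rw [show 1 + 1 = 2 from rfl, gq2, gq1] at h
  rw [show 3 = 1 + 2 from rfl, h]
  push_cast
  ring

theorem gq4 (t : ℝ) : geg 24 t 4 = ((3) * t ^ 0 + (-156) * t ^ 2 + (728) * t ^ 4) / 575 := by
  have h : geg 24 t (2 + 2) = _ := geg.eq_3 24 t 2
  rw [show 2 + 1 = 3 from rfl, gq3, gq2] at h
  rw [show 4 = 2 + 2 from rfl, h]
  push_cast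
  ring

theorem gq5 (t : ℝ) : geg 24 t 5 = ((3) * t ^ 1 + (-56) * t ^ 3 + (168) * t ^ 5) / 115 := by
  have h : geg 24 t (3 + 2) = _ := geg.eq_3 24 t 3
  rw [show 3 + 1 = 4 from rfl, gq4, gq3] at h
  rw [show 5 = 3 + 2 from rfl, h]
  push_cast
  ring

theorem gq6 (t : ℝ) : geg 24 t 6 = ((-1) * t ^ 0 + (84) * t ^ 2 + (-840) * t ^ 4 + (1792) * t ^ 6) / 1035 := by
  have h : geg 24 t (4 + 2) = _ := geg.eq_3 24 t 4
  rw [show 4 + 1 = 5 from rfl, gq5, gq4] at h
  rw [show 6 = 4 + 2 from rfl, h]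
  push_cast
  ring

theorem gq7 (t : ℝ) : geg 24 t 7 = ((-7) * t ^ 1 + (210) * t ^ 3 + (-1344) * t ^ 5 + (2176) * t ^ 7) / 1035 := by
  have h : geg 24 t (5 + 2) = _ := geg.eq_3 24 t 5
  rw [show 5 + 1 = 6 from rfl, gq6, gq5] at h
  rw [show 7 = 5 + 2 from rfl, h]
  push_cast
  ring

theorem gq8 (t : ℝ) : geg 24 t 8 = ((7) * t ^ 0 + (-840) * t ^ 2 + (13440) * t ^ 4 + (-60928) * t ^ 6 + (78336) * t ^ 8) / 30015 := by
  have h : geg 24 t (6 + 2) = _ := geg.eq_3 24 t 6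
  rw [show 6 + 1 = 7 from rfl, gq7, gq6] at h
  rw [show 8 = 6 + 2 from rfl, h]
  push_cast
  ring

theorem gq9 (t : ℝ) : geg 24 t 9 = ((105) * t ^ 1 + (-4480) * t ^ 3 + (45696) * t ^ 5 + (-156672) * t ^ 7 + (165376) * t ^ 9) / 50025 := by
  have h : geg 24 t (7 + 2) = _ := geg.eq_3 24 t 7
  rw [show 7 + 1 = 8 from rfl, gq8, gq7] at h
  rw [show 9 = 7 + 2 from rfl, h]
  push_cast
  ring

theorem gq10 (t : ℝ) : geg 24 t 10 = ((-21) * t ^ 0 + (3360) * t ^ 2 + (-76160) * t ^ 4 + (548352) * t ^ 6 + (-1488384) * t ^ 8 + (1323008) * t ^ 10) / 310155 := by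
  have h : geg 24 t (8 + 2) = _ := geg.eq_3 24 t 8
  rw [show 8 + 1 = 9 from rfl, gq9, gq8] at h
  rw [show 10 = 8 + 2 from rfl, h]
  push_cast
  ring

theorem gq11 (t : ℝ) : geg 24 t 11 = ((-231) * t ^ 1 + (13090) * t ^ 3 + (-188496) * t ^ 5 + (1023264) * t ^ 7 + (-2273920) * t ^ 9 + (1736448) * t ^ 11) / 310155 := by
  have h : geg 24 t (9 + 2) = _ := geg.eq_3 24 t 9
  rw [show 9 + 1 = 10 from rfl, gq10, gq9] at h
  rw [show 11 = 9 + 2 from rfl, h]
  push_cast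
  ring

theorem gq12 (t : ℝ) : geg 24 t 12 = ((7) * t ^ 0 + (-1428) * t ^ 2 + (42840) * t ^ 4 + (-434112) * t ^ 6 + (1860480) * t ^ 8 + (-3472896) * t ^ 10 + (2315264) * t ^ 12) / 310155 := by
  have h : geg 24 t (10 + 2) = _ := geg.eq_3 24 t 10
  rw [show 10 + 1 = 11 from rfl, gq11, gq10] at h
  rw [show 12 = 10 + 2 from rfl, h]
  push_cast
  ring

theorem pk_H (u : ι → EuclideanSpace ℝ (Fin 24)) (hu : ∀ i ∈ S, ‖u i‖ = 1)
    (k : ℕ) : PK S fun i j => ev1 (inner ℝ (u i) (u j)) (Hk k) := by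
  rcases k with _ | _ | _ | _ | _ | _ | _ | _ | _ | _ | _ | _ | _ | k
  · refine ((pk_geg u hu 0).smul (c := 1) (by norm_num)).congr fun i j => ?_
    simp only [gq0, Hk, Hs, List.getD_cons_zero, List.getD_cons_succ, ev1, evL]
    push_cast; ring
  · refine ((pk_geg u hu 1).smul (c := 1) (by norm_num)).congr fun i j => ?_
    simp only [gq1, Hk, Hs, List.getD_cons_zero, List.getD_cons_succ, ev1, evL]
    push_cast; ring
  · refine ((pk_geg u hu 2).smul (c := 23) (by norm_num)).congr fun i j => ?_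
    simp only [gq2, Hk, Hs, List.getD_cons_zero, List.getD_cons_succ, ev1, evL]
    push_cast; ring
  · refine ((pk_geg u hu 3).smul (c := 23) (by norm_num)).congr fun i j => ?_
    simp only [gq3, Hk, Hs, List.getD_cons_zero, List.getD_cons_succ, ev1, evL]
    push_cast; ring
  · refine ((pk_geg u hu 4).smul (c := 575) (by norm_num)).congr fun i j => ?_
    simp only [gq4, Hk, Hs, List.getD_cons_zero, List.getD_cons_succ, ev1, evL]
    push_cast; ring
  · refine ((pk_geg u hu 5).smul (c := 115) (by norm_num)).congr fun i j => ?_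
    simp only [gq5, Hk, Hs, List.getD_cons_zero, List.getD_cons_succ, ev1, evL]
    push_cast; ring
  · refine ((pk_geg u hu 6).smul (c := 1035) (by norm_num)).congr fun i j => ?_
    simp only [gq6, Hk, Hs, List.getD_cons_zero, List.getD_cons_succ, ev1, evL]
    push_cast; ring
  · refine ((pk_geg u hu 7).smul (c := 1035) (by norm_num)).congr fun i j => ?_
    simp only [gq7, Hk, Hs, List.getD_cons_zero, List.getD_cons_succ, ev1, evL]
    push_cast; ring
  · refine ((pk_geg u hu 8).smul (c := 30015) (by norm_num)).congr fun i j => ?_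
    simp only [gq8, Hk, Hs, List.getD_cons_zero, List.getD_cons_succ, ev1, evL]
    push_cast; ring
  · refine ((pk_geg u hu 9).smul (c := 50025) (by norm_num)).congr fun i j => ?_
    simp only [gq9, Hk, Hs, List.getD_cons_zero, List.getD_cons_succ, ev1, evL]
    push_cast; ring
  · refine ((pk_geg u hu 10).smul (c := 310155) (by norm_num)).congr fun i j => ?_
    simp only [gq10, Hk, Hs, List.getD_cons_zero, List.getD_cons_succ, ev1, evL]
    push_cast; ring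
  · refine ((pk_geg u hu 11).smul (c := 310155) (by norm_num)).congr fun i j => ?_
    simp only [gq11, Hk, Hs, List.getD_cons_zero, List.getD_cons_succ, ev1, evL]
    push_cast; ring
  · refine ((pk_geg u hu 12).smul (c := 310155) (by norm_num)).congr fun i j => ?_
    simp only [gq12, Hk, Hs, List.getD_cons_zero, List.getD_cons_succ, ev1, evL]
    push_cast; ring
  · refine (PK.zero S).congr fun i j => ?_
    simp [Hk, Hs, ev1, evL]

theorem Fp_nonpos {x y t : ℝ} (hx : x ^ 2 ≤ 1) (hy : y ^ 2 ≤ 1) (ht : -1 ≤ t)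
    (ht' : 512 * t ≤ 256 - 16 * x - 16 * y - x * y) : ev3 x y t Fp ≤ 0 := by
  have h := ev3_zero x y t _ cert
  simp only [ev3_add, ev3_mul, ev3_cN] at h
  have e1 : ev3 x y t mLo = 1 + t := by simp [ev3, ev2, ev1, evL, mLo]
  have e2 : ev3 x y t mHi = 256 - 16 * x - 16 * y - x * y - 512 * t := by
    simp [ev3, ev2, ev1, evL, mHi]; ring
  have e3 : ev3 x y t mX = 1 - x ^ 2 := by simp [ev3, ev2, ev1, evL, mX]; ring
  have e4 : ev3 x y t mY = 1 - y ^ 2 := by simp [ev3, ev2, ev1, evL, mY]; ring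
  rw [e1, e2, e3, e4] at h
  have p1 := sos_nonneg x y t bigL sq_1
  have p2 := mul_nonneg (mul_nonneg (by linarith : 0 ≤ 1 + t)
    (by linarith : 0 ≤ 256 - 16 * x - 16 * y - x * y - 512 * t)) (sos_nonneg x y t bigL sq_lh)
  have p3 := mul_nonneg (by linarith : 0 ≤ 1 - x ^ 2) (sos_nonneg x y t bigL sq_bx)
  have p4 := mul_nonneg (by linarith : 0 ≤ 1 - y ^ 2) (sos_nonneg x y t bigL sq_by)
  have p0 : (0 : ℝ) < ((bigL / bigF : ℕ) : ℝ) := Nat.cast_pos.mpr bigL_pos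
  by_contra hc
  have := mul_pos p0 (not_le.mp hc)
  linarith

theorem diag_eq (x : ℝ) :
    393120 * (36641439744 * (w0 : ℝ)) * ev1 x phi0 - ev3 x x 1 Fp
      = 393120 * (36641439744 ^ 2 * (w0 : ℝ)) * gg x := by
  have h := ev1_zero x _ certD
  rw [ev1_add, ← ev3_diag] at h
  have : ev3 x x 1 Fp = - ev1 x negD := by linarith
  rw [this]
  simp only [ev1, evL, negD, phi0, w0, gg]
  push_cast
  ring

theorem w0_pos : (0 : ℝ) < w0 := by
  have : 0 < w0 := by decide +kernel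
  exact_mod_cast this

theorem local_gg (u : ι → EuclideanSpace ℝ (Fin 24)) (x : ι → ℝ)
    (hu : ∀ i ∈ S, ‖u i‖ = 1) (hx : ∀ i ∈ S, x i ^ 2 ≤ 1)
    (ht : ∀ i ∈ S, ∀ j ∈ S, i ≠ j →
      512 * inner ℝ (u i) (u j) ≤ 256 - 16 * x i - 16 * x j - x i * x j) :
    ∑ i ∈ S, gg (x i) ≤ 98280 := by
  classical
  have hu' : ∀ i ∈ S, inner ℝ (u i) (u i) = (1 : ℝ) := fun i hi => by
    rw [real_inner_self_eq_norm_sq, hu i hi]; norm_num
  have h1 := (kerP_pk Hk x (fun i j => inner ℝ (u i) (u j)) (pk_H u hu) terms).sum_nonneg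
  have h2 : ∑ i ∈ S, ∑ j ∈ S, ev3 (x i) (x j) (inner ℝ (u i) (u j)) Fp
      = w0 * (∑ i ∈ S, ev1 (x i) phi0) ^ 2
        + ∑ i ∈ S, ∑ j ∈ S, ev3 (x i) (x j) (inner ℝ (u i) (u j)) (kerP Hk terms) := by
    simp only [Fp, ev3_add, ev3_mul, ev3_cN, ev3_cX, ev3_cY, sum_add_distrib]
    rw [sq, sum_mul_sum, mul_sum]
    simp only [mul_sum]
  have h3 : ∑ i ∈ S, ∑ j ∈ S, ev3 (x i) (x j) (inner ℝ (u i) (u j)) Fp
      ≤ ∑ i ∈ S, ev3 (x i) (x i) 1 Fp := by
    refine sum_le_sum fun i hi => ?_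
    rw [← add_sum_erase S _ hi, hu' i hi]
    have : ∑ j ∈ S.erase i, ev3 (x i) (x j) (inner ℝ (u i) (u j)) Fp ≤ 0 := by
      refine sum_nonpos fun j hj => ?_
      have hj' := mem_of_mem_erase hj
      refine Fp_nonpos (hx i hi) (hx j hj') ?_ (ht i hi j hj' (ne_of_mem_erase hj).symm)
      have := abs_real_inner_le_norm (u i) (u j)
      rw [hu i hi, hu j hj'] at this
      linarith [(abs_le.mp this).1]
    linarith
  have h4 : ∑ i ∈ S, 393120 * (36641439744 ^ 2 * (w0 : ℝ)) * gg (x i)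
      = 393120 * (36641439744 * (w0 : ℝ)) * ∑ i ∈ S, ev1 (x i) phi0 - ∑ i ∈ S, ev3 (x i) (x i) 1 Fp := by
    rw [mul_sum, ← sum_sub_distrib]
    exact sum_congr rfl fun i _ => (diag_eq (x i)).symm
  rw [← mul_sum] at h4
  have hw := w0_pos
  generalize (w0 : ℝ) = w at *
  generalize ∑ i ∈ S, ev1 (x i) phi0 = A at *
  generalize ∑ i ∈ S, gg (x i) = B at *
  have h5 : 0 ≤ w * (A - 196560 * 36641439744) ^ 2 := by positivity
  have h6 : w * B ≤ w * 98280 := by nlinarith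
  exact le_of_mul_le_mul_left h6 hw

theorem gg_zero : gg 0 = 1 / 2 := by norm_num [gg]

theorem gg_one : 1 ≤ gg 1 := by norm_num [gg]

theorem gg_symm {x : ℝ} (hx : x ^ 2 ≤ 1) : 1 ≤ gg x + gg (-x) := by
  have h : 0 ≤ x ^ 2 * (1 - x ^ 2) := mul_nonneg (sq_nonneg x) (by linarith)
  simp only [gg]
  nlinarith [sq_nonneg x]

/-- the weight of a neighbour with relative radius `ρ` -/
noncomputable def wt (ρ : ℝ) : ℝ := if ρ < 15 / 32 then 0 else gg (min (32 * ρ - 16) 1)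

theorem wt_half : wt (1 / 2) = 1 / 2 := by
  rw [wt, if_neg (by norm_num)]
  have : min (32 * (1 / 2 : ℝ) - 16) 1 = 0 := by norm_num
  rw [this, gg_zero]

theorem wt_symm (ρ : ℝ) : 1 ≤ wt ρ + wt (1 - ρ) := by
  unfold wt
  by_cases h1 : ρ < 15 / 32
  · rw [if_pos h1, if_neg (by linarith), min_eq_right (by linarith)]
    linarith [gg_one]
  · by_cases h2 : 1 - ρ < 15 / 32
    · rw [if_neg h1, if_pos h2, min_eq_right (by linarith)]
      linarith [gg_one]
    · rw [if_neg h1, if_neg h2, min_eq_left (by linarith), min_eq_left (by linarith)]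
      have e : 32 * (1 - ρ) - 16 = -(32 * ρ - 16) := by ring
      rw [e]
      exact gg_symm (by nlinarith)

theorem local_wt (u : ι → EuclideanSpace ℝ (Fin 24)) (ρ : ι → ℝ)
    (hu : ∀ i ∈ S, ‖u i‖ = 1)
    (ht : ∀ i ∈ S, ∀ j ∈ S, i ≠ j → inner ℝ (u i) (u j) ≤ 1 - 2 * ρ i * ρ j) :
    ∑ i ∈ S, wt (ρ i) ≤ 98280 := by
  classical
  have e : ∑ i ∈ S, wt (ρ i)
      = ∑ i ∈ S.filter (fun i => ¬ ρ i < 15 / 32), gg (min (32 * ρ i - 16) 1) := by
    rw [sum_filter]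
    refine sum_congr rfl fun i _ => ?_
    unfold wt
    split_ifs <;> rfl
  rw [e]
  have hb : ∀ i ∈ S.filter (fun i => ¬ ρ i < 15 / 32),
      -1 ≤ min (32 * ρ i - 16) 1 ∧ min (32 * ρ i - 16) 1 ≤ 1 ∧
        min (32 * ρ i - 16) 1 ≤ 32 * ρ i - 16 := fun i hi => by
    have := (mem_filter.mp hi).2
    exact ⟨le_min (by linarith) (by norm_num), min_le_right _ _, min_le_left _ _⟩
  refine local_gg u (fun i => min (32 * ρ i - 16) 1) (fun i hi => hu i (mem_filter.mp hi).1)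
    (fun i hi => ?_) fun i hi j hj hij => ?_
  · obtain ⟨a, b, _⟩ := hb i hi
    nlinarith
  · obtain ⟨a, _, c⟩ := hb i hi
    obtain ⟨a', _, c'⟩ := hb j hj
    have := ht i (mem_filter.mp hi).1 j (mem_filter.mp hj).1 hij
    generalize min (32 * ρ i - 16) 1 = x at *
    generalize min (32 * ρ j - 16) 1 = y at *
    have h1 : (x + 16) * (y + 16) ≤ (32 * ρ i) * (32 * ρ j) :=
      mul_le_mul (by linarith) (by linarith) (by linarith) (by linarith)
    nlinarith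

end Pool.Agent.Lib.MP_e6e291_co.D24
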