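import Pool.Agent.Lib.MP_e6e291_co.D24.Upper
import Pool.Agent.Lib.MP_e6e291_co.D24.Leech

set_option linter.constructorNameAsVariable false

namespace Pool.Agent.Lib.MP_e6e291_co.D24

open Finset Metric

noncomputable def emb (c : Fin 24 → ℤ) : EuclideanSpace ℝ (Fin 24) :=
  WithLp.toLp 2 fun i => (c i : ℝ) / √8

theorem dist_emb_sq (a b : Fin 24 → ℤ) :
    8 * dist (emb a) (emb b) ^ 2 = (nrm (a - b) : ℝ) := by
  rw [EuclideanSpace.dist_eq, Real.sq_sqrt (sum_nonneg fun i _ => sq_nonneg _), mul_sum, nrm]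
  push_cast
  refine sum_congr rfl fun i _ => ?_
  simp only [emb, Real.dist_eq, sq_abs, Pi.sub_apply]
  rw [← sub_div, div_pow, Real.sq_sqrt (by norm_num)]
  push_cast
  ring

theorem dist_emb_ge {a b : Fin 24 → ℤ} (ha : Lee a) (hb : Lee b) (h : a ≠ b) :
    1 + 1 ≤ dist (emb a) (emb b) := by
  have h1 : (32 : ℝ) ≤ nrm (a - b) := by exact_mod_cast (ha.sub hb).min (sub_ne_zero.mpr h)
  have h2 := dist_emb_sq a b
  nlinarith [dist_nonneg (x := emb a) (y := emb b)]

theorem dist_emb_eq {a b : Fin 24 → ℤ} (h : nrm (a - b) = 32) : dist (emb a) (emb b) = 2 := by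
  have h2 := dist_emb_sq a b
  rw [h] at h2
  push_cast at h2
  nlinarith [dist_nonneg (x := emb a) (y := emb b)]

theorem emb_inj : Function.Injective emb := fun a b h => by
  funext i
  have h1 : (a i : ℝ) / √8 = (b i : ℝ) / √8 := congrArg (fun z : EuclideanSpace ℝ (Fin 24) => z i) h
  have h2 : (√8 : ℝ) ≠ 0 := by positivity
  exact_mod_cast (div_left_inj' h2).mp h1

theorem emb_zero : emb 0 = 0 := by
  ext i
  simp [emb]

theorem kiss_lower : ∃ C : Finset (EuclideanSpace ℝ (Fin 24)), C.card = 196560 ∧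
    (∀ c ∈ C, dist c 0 = 2) ∧ ∀ a ∈ C, ∀ b ∈ C, a ≠ b →
      Disjoint (interior (closedBall a 1)) (interior (closedBall b 1)) := by
  classical
  refine ⟨VV.image emb, ?_, ?_, ?_⟩
  · rw [card_image_of_injective _ emb_inj, card_VV]
  · intro c hc
    obtain ⟨r, hr, rfl⟩ := mem_image.mp hc
    rw [← emb_zero]
    exact dist_emb_eq (by rw [sub_zero]; exact (VV_prop hr).2.1)
  · intro a ha b hb hab
    obtain ⟨r, hr, rfl⟩ := mem_image.mp ha
    obtain ⟨s, hs, rfl⟩ := mem_image.mp hb
    exact (disj_iff one_pos one_pos).mpr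
      (dist_emb_ge (VV_prop hr).1 (VV_prop hs).1 fun h => hab (by rw [h]))

@[irreducible] noncomputable def box (a b : ℤ) : Finset (Fin 24 → ℤ) :=
  Fintype.piFinset fun _ => Ico a b

theorem mem_box {a b : ℤ} {x : Fin 24 → ℤ} : x ∈ box a b ↔ ∀ i, a ≤ x i ∧ x i < b := by
  simp only [box, Fintype.mem_piFinset, mem_Ico]

theorem card_box (a : ℤ) (n : ℕ) : (box a (a + n)).card = n ^ 24 := by
  simp [box]

open Classical in
@[irreducible] noncomputable def pts (a : ℤ) (n : ℕ) : Finset (Fin 24 → ℤ) :=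
  (box (8 * a) (8 * (a + n))).filter Lee

theorem mem_pts {a : ℤ} {n : ℕ} {x : Fin 24 → ℤ} :
    x ∈ pts a n ↔ (∀ i, 8 * a ≤ x i ∧ x i < 8 * (a + n)) ∧ Lee x := by
  classical
  rw [pts, mem_filter, mem_box]

theorem card_pts (a : ℤ) (n : ℕ) : (pts a n).card = (pts 0 1).card * n ^ 24 := by
  rw [← card_box a n, ← card_product]
  refine card_nbij' (fun x => (x - fun i => 8 * (x i / 8), fun i => x i / 8))
    (fun p => p.1 - fun i => 8 * (-p.2 i)) ?_ ?_ ?_ ?_
  · intro x hx
    obtain ⟨h1, h2⟩ := mem_pts.mp (mem_coe.mp hx)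
    refine mem_coe.mpr (mem_product.mpr ⟨mem_pts.mpr ⟨fun i => ?_, h2.sub (lee_eight _)⟩,
      mem_box.mpr fun i => ?_⟩)
    · simp only [Pi.sub_apply]
      omega
    · have := h1 i
      simp only
      omega
  · rintro ⟨r, z⟩ hp
    obtain ⟨h1, h2⟩ := mem_product.mp (mem_coe.mp hp)
    obtain ⟨h3, h4⟩ := mem_pts.mp h1
    refine mem_coe.mpr (mem_pts.mpr ⟨fun i => ?_, h4.sub (lee_eight fun i => -z i)⟩)
    have := h3 i
    have := mem_box.mp h2 i
    simp only [Pi.sub_apply] at *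
    omega
  · intro x _
    funext i
    simp only [Pi.sub_apply]
    omega
  · rintro ⟨r, z⟩ hp
    obtain ⟨h1, -⟩ := mem_product.mp (mem_coe.mp hp)
    obtain ⟨h3, -⟩ := mem_pts.mp h1
    refine Prod.ext (funext fun i => ?_) (funext fun i => ?_)
    · have := h3 i
      simp only [Pi.sub_apply] at *
      omega
    · have := h3 i
      simp only [Pi.sub_apply] at *
      omega

theorem pts_pos : 0 < (pts 0 1).card :=
  card_pos.mpr ⟨fun _ => 8 * 0, mem_pts.mpr ⟨fun i => by simp, lee_eight fun _ => 0⟩⟩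

open Classical in
noncomputable def pack (n : ℕ) : Finset (EuclideanSpace ℝ (Fin 24) × ℝ) :=
  (pts 0 (n + 2)).image fun c => (emb c, 1)

theorem card_pack (n : ℕ) : (pack n).card = (pts 0 1).card * (n + 2) ^ 24 := by
  classical
  rw [pack, card_image_of_injective _ fun a b h => emb_inj (Prod.ext_iff.mp h).1, card_pts]

theorem pack_isPacking (n : ℕ) : IsPacking (pack n) := by
  classical
  constructor
  · intro a ha
    obtain ⟨r, -, rfl⟩ := mem_image.mp ha
    exact one_pos
  · intro a ha b hb hab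
    obtain ⟨r, hr, rfl⟩ := mem_image.mp ha
    obtain ⟨s, hs, rfl⟩ := mem_image.mp hb
    exact (disj_iff one_pos one_pos).mpr
      (dist_emb_ge (mem_pts.mp hr).2 (mem_pts.mp hs).2 fun h => hab (by rw [h]))

theorem mem_pack {n : ℕ} {c : Fin 24 → ℤ} (h : ∀ i, 0 ≤ c i ∧ c i < 8 * n + 16) (hc : Lee c) :
    (emb c, (1 : ℝ)) ∈ pack n := by
  classical
  refine mem_image.mpr ⟨c, mem_pts.mpr ⟨fun i => ?_, hc⟩, rfl⟩
  have := h i
  push_cast
  omega

theorem pack_edges (n : ℕ) :
    (pts 0 1).card * n ^ 24 * 196560 ≤ 2 * (contactGraph (pack n)).edgeSet.ncard := by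
  classical
  set G := contactGraph (pack n) with hG
  have e1 : G.edgeSet.ncard = G.edgeFinset.card := by
    rw [← SimpleGraph.coe_edgeFinset, Set.ncard_coe_finset]
  rw [e1, ← SimpleGraph.dart_card_eq_twice_card_edges]
  have hb := fun c : pts 1 n => mem_pts.mp c.2
  have hr := fun r : VV => VV_prop r.2
  have m1 : ∀ c : pts 1 n, (emb c.1, (1 : ℝ)) ∈ pack n := fun c =>
    mem_pack (fun i => by have := (hb c).1 i; omega) (hb c).2
  have m2 : ∀ (c : pts 1 n) (r : VV), (emb (c.1 - r.1), (1 : ℝ)) ∈ pack n :=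
    fun c r => mem_pack (fun i => by
      have := (hb c).1 i; have := (hr r).2.2 i; simp only [Pi.sub_apply]; omega)
      ((hb c).2.sub (hr r).1)
  have hd : ∀ (c : pts 1 n) (r : VV), dist (emb c.1) (emb (c.1 - r.1)) = 2 :=
    fun c r => dist_emb_eq (by rw [sub_sub_cancel]; exact (hr r).2.1)
  let f : pts 1 n × VV → G.Dart := fun p =>
    ⟨(⟨_, m1 p.1⟩, ⟨_, m2 p.1 p.2⟩), adj_iff.mpr ⟨fun h => by
      have h1 : emb p.1.1 = emb (p.1.1 - p.2.1) := (Prod.ext_iff.mp (Subtype.ext_iff.mp h)).1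
      have h2 := hd p.1 p.2
      rw [← h1, dist_self] at h2
      norm_num at h2, by
      have := hd p.1 p.2
      simp only [this]; norm_num⟩⟩
  have hf : Function.Injective f := by
    intro p q h
    have h0 := congrArg SimpleGraph.Dart.toProd h
    have h1 : emb p.1.1 = emb q.1.1 :=
      (Prod.ext_iff.mp (Subtype.ext_iff.mp (Prod.ext_iff.mp h0).1)).1
    have h2 : emb (p.1.1 - p.2.1) = emb (q.1.1 - q.2.1) :=
      (Prod.ext_iff.mp (Subtype.ext_iff.mp (Prod.ext_iff.mp h0).2)).1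
    have h3 := emb_inj h1
    have h4 := emb_inj h2
    rw [h3] at h4
    exact Prod.ext (Subtype.ext h3) (Subtype.ext (sub_right_injective h4))
  have := Fintype.card_le_of_injective f hf
  rwa [Fintype.card_prod, Fintype.card_coe, Fintype.card_coe, card_pts, card_VV] at this

theorem kappa_isLUB : IsLUB {x : ℝ | ∃ P : Finset (EuclideanSpace ℝ (Fin 24) × ℝ),
    P.Nonempty ∧ IsPacking P ∧ x = 2 * ((contactGraph P).edgeSet.ncard : ℝ) / P.card} 196560 := by
  constructor
  · rintro x ⟨P, hne, hP, rfl⟩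
    have : (0 : ℝ) < P.card := by exact_mod_cast hne.card_pos
    rw [div_le_iff₀ this]
    exact upper hP
  · intro b hb
    have h1 : ∀ n : ℕ, 196560 * ((n : ℝ) / (n + 2)) ^ 24 ≤ b := fun n => by
      have hc := card_pack n
      have hp := pts_pos
      have he := pack_edges n
      generalize (pts 0 1).card = c at hc hp he
      have hpos : 0 < (pack n).card := by
        rw [hc]
        exact Nat.mul_pos hp (pow_pos (by omega) _)
      refine le_trans ?_ (hb ⟨pack n, card_pos.mp hpos, pack_isPacking n, rfl⟩)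
      rw [hc]
      generalize (contactGraph (pack n)).edgeSet.ncard = E at he
      have h2 : (c : ℝ) * (n : ℝ) ^ 24 * 196560 ≤ 2 * (E : ℝ) := by exact_mod_cast he
      have hp' : (0 : ℝ) < c := by exact_mod_cast hp
      rw [div_pow]
      push_cast
      rw [← mul_div_assoc, ← mul_div_mul_left _ _ hp'.ne']
      refine div_le_div_of_nonneg_right ?_
        (mul_nonneg hp'.le (pow_nonneg (add_nonneg (Nat.cast_nonneg n) zero_le_two) _))
      generalize (n : ℝ) ^ 24 = w at h2
      linarith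
    have h2 : Filter.Tendsto (fun n : ℕ => 196560 * ((n : ℝ) / (n + 2)) ^ 24) Filter.atTop
        (nhds (196560 * 1 ^ 24)) :=
      ((tendsto_natCast_div_add_atTop (2 : ℝ)).pow 24).const_mul 196560
    have := le_of_tendsto' h2 h1
    linarith

end Pool.Agent.Lib.MP_e6e291_co.D24
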