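import Pool.Agent.Lib.MP_e6e291_co.D24.Local

namespace Pool.Agent.Lib.MP_e6e291_co.D24

open Finset Metric

theorem upper {P : Finset (EuclideanSpace ℝ (Fin 24) × ℝ)} (hP : IsPacking P) :
    2 * ((contactGraph P).edgeSet.ncard : ℝ) ≤ 196560 * P.card := by
  classical
  set G := contactGraph P with hG
  have e1 : G.edgeSet.ncard = G.edgeFinset.card := by
    rw [← SimpleGraph.coe_edgeFinset, Set.ncard_coe_finset]
  have e2 : 2 * (G.edgeSet.ncard : ℝ) = ∑ a : P, ∑ _b ∈ G.neighborFinset a, (1 : ℝ) := by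
    rw [e1]
    have := G.sum_degrees_eq_twice_card_edges
    simp only [sum_const, nsmul_eq_mul, mul_one, SimpleGraph.card_neighborFinset_eq_degree]
    exact_mod_cast this.symm
  have pos : ∀ a : P, 0 < a.1.2 := fun a => hP.1 a.1 a.2
  let f : P → P → ℝ := fun a b => wt (b.1.2 / (a.1.2 + b.1.2))
  have h1 : ∀ a b : P, 1 ≤ f a b + f b a := fun a b => by
    have := wt_symm (b.1.2 / (a.1.2 + b.1.2))
    have e : 1 - b.1.2 / (a.1.2 + b.1.2) = a.1.2 / (b.1.2 + a.1.2) := by
      have := pos a; have := pos b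
      field_simp; ring
    rwa [e] at this
  have h2 : ∀ a : P, ∑ b ∈ G.neighborFinset a, f a b ≤ 98280 := fun a => by
    refine local_wt (fun b : P => (a.1.2 + b.1.2)⁻¹ • (b.1.1 - a.1.1))
      (fun b : P => b.1.2 / (a.1.2 + b.1.2)) (fun b hb => ?_) fun b hb c hc hbc => ?_
    · rw [SimpleGraph.mem_neighborFinset] at hb
      exact norm_dir (add_pos (pos a) (pos b)) (adj_iff.mp hb).2
    · rw [SimpleGraph.mem_neighborFinset] at hb hc
      exact inner_dir (pos a) (pos b) (pos c) (adj_iff.mp hb).2 (adj_iff.mp hc).2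
        ((disj_iff (pos b) (pos c)).mp (hP.2 _ b.2 _ c.2 fun h => hbc (Subtype.ext h)))
  have h3 : ∑ a : P, ∑ b ∈ G.neighborFinset a, f b a = ∑ a : P, ∑ b ∈ G.neighborFinset a, f a b := by
    refine sum_comm' fun a b => ?_
    simp only [mem_univ, SimpleGraph.mem_neighborFinset, true_and, and_true]
    exact G.adj_comm a b
  have h4 : ∑ a : P, ∑ _b ∈ G.neighborFinset a, (1 : ℝ)
      ≤ ∑ a : P, ∑ b ∈ G.neighborFinset a, (f a b + f b a) :=
    sum_le_sum fun a _ => sum_le_sum fun b _ => h1 a b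
  simp only [sum_add_distrib] at h4
  have h5 : ∑ a : P, ∑ b ∈ G.neighborFinset a, f a b ≤ ∑ _a : P, (98280 : ℝ) :=
    sum_le_sum fun a _ => h2 a
  simp only [sum_const, card_univ, Fintype.card_coe, nsmul_eq_mul] at h5
  rw [e2]
  linarith

theorem kiss_upper {C : Finset (EuclideanSpace ℝ (Fin 24))} (h0 : ∀ c ∈ C, dist c 0 = 2)
    (h1 : ∀ a ∈ C, ∀ b ∈ C, a ≠ b →
      Disjoint (interior (closedBall a 1)) (interior (closedBall b 1))) : C.card ≤ 196560 := by
  have h := local_wt (S := C) (fun c => ((1 : ℝ) + 1)⁻¹ • (c - 0)) (fun _ => 1 / (1 + 1))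
    (fun c hc => norm_dir (by norm_num) (by rw [dist_comm, h0 c hc]; norm_num))
    fun a ha b hb hab => inner_dir one_pos one_pos one_pos
      (by rw [dist_comm, h0 a ha]; norm_num) (by rw [dist_comm, h0 b hb]; norm_num)
      ((disj_iff one_pos one_pos).mp (h1 a ha b hb hab))
  have e : (1 / (1 + 1) : ℝ) = 1 / 2 := by norm_num
  simp only [e, wt_half, sum_const, nsmul_eq_mul] at h
  have : (C.card : ℝ) ≤ 196560 := by linarith
  exact_mod_cast this

end Pool.Agent.Lib.MP_e6e291_co.D24
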